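import Pool.Agent.Helper23.DK.E3

set_option autoImplicit false

/-! Module E2: bounded number of values on the fibres; many small fibres. -/

namespace Pool.Agent.Helper70.DK

open Finset

theorem e2_log_nat_nonneg (n : ℕ) : 0 ≤ Real.log (n : ℝ) := Real.log_natCast_nonneg n

theorem e2_sum_inv {Ω α : Type} (S : Finset Ω) (f : Ω → α) (F : Finset α)
    (hF : ∀ x ∈ S, f x ∈ F) :
    ∑ x ∈ S, (1 : ℝ) / ((fib S f (f x)).card : ℝ) ≤ F.card := by
  classical
  rw [← Finset.sum_fiberwise_of_maps_to hF]
  have h : ∀ z ∈ F, ∑ x ∈ S with f x = z, (1 : ℝ) / ((fib S f (f x)).card : ℝ) ≤ 1 := by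
    intro z _
    have h1 : {ω ∈ S | f ω = z} = fib S f z := by
      ext x
      rw [e3_mem_fib, Finset.mem_filter]
    have h2 : ∑ x ∈ S with f x = z, (1 : ℝ) / ((fib S f (f x)).card : ℝ) =
        ∑ _x ∈ fib S f z, (1 : ℝ) / ((fib S f z).card : ℝ) := by
      rw [h1]
      refine Finset.sum_congr rfl fun x hx => ?_
      rw [e3_mem_fib] at hx
      rw [hx.2]
    rw [h2, Finset.sum_const, nsmul_eq_mul, mul_one_div]
    exact div_self_le_one _
  calc _ ≤ ∑ _z ∈ F, (1 : ℝ) := Finset.sum_le_sum h
    _ = F.card := by simp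

theorem e2_ent_le {Ω α : Type} (S : Finset Ω) (f : Ω → α) (F : Finset α)
    (hF : ∀ x ∈ S, f x ∈ F) : ent S f ≤ Real.log F.card := by
  rcases S.eq_empty_or_nonempty with hS | hS
  · subst hS
    simp only [ent, Finset.card_empty, Nat.cast_zero, div_zero]
    exact e2_log_nat_nonneg _
  have hF0 : 0 < F.card := by
    obtain ⟨x, hx⟩ := hS
    exact Finset.card_pos.2 ⟨f x, hF x hx⟩
  have hFr : (0 : ℝ) < F.card := by exact_mod_cast hF0
  have hSr : (0 : ℝ) < S.card := by exact_mod_cast Finset.card_pos.2 hS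
  rw [e3_ent_eq, div_le_iff₀ hSr]
  have h1 : ∀ x ∈ S, Real.log (S.card : ℝ) - Real.log ((fib S f (f x)).card : ℝ) ≤
      ((S.card : ℝ) / F.card) * (1 / ((fib S f (f x)).card : ℝ)) + (Real.log F.card - 1) := by
    intro x hx
    have hp : (0 : ℝ) < ((fib S f (f x)).card : ℝ) := by
      exact_mod_cast Finset.card_pos.2 ⟨x, (e3_mem_fib S f (f x) x).2 ⟨hx, rfl⟩⟩
    have h2 := Real.log_le_sub_one_of_pos
      (show (0 : ℝ) < (S.card : ℝ) / F.card * (1 / ((fib S f (f x)).card : ℝ)) by positivity)
    rw [Real.log_mul (by positivity) (by positivity), Real.log_div hSr.ne' hFr.ne',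
      Real.log_div one_ne_zero hp.ne', Real.log_one] at h2
    linarith
  calc _ ≤ ∑ x ∈ S, (((S.card : ℝ) / F.card) * (1 / ((fib S f (f x)).card : ℝ)) +
        (Real.log F.card - 1)) := Finset.sum_le_sum h1
    _ = ((S.card : ℝ) / F.card) * ∑ x ∈ S, (1 / ((fib S f (f x)).card : ℝ)) +
        S.card * (Real.log F.card - 1) := by
      rw [Finset.sum_add_distrib, ← Finset.mul_sum, Finset.sum_const, nsmul_eq_mul]
    _ ≤ ((S.card : ℝ) / F.card) * F.card + S.card * (Real.log F.card - 1) := by
      have := e2_sum_inv S f F hF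
      gcongr
    _ = Real.log F.card * S.card := by
      rw [div_mul_cancel₀ _ hFr.ne']
      ring

theorem st_E2 : ST_E2 := by
  refine ⟨?_, ?_, ?_⟩
  · intro Ω α β S f g K hK
    classical
    rw [st_E3 Ω α β S f g (S.image g) (fun x hx => Finset.mem_image_of_mem g hx)]
    rcases S.eq_empty_or_nonempty with hS | hS
    · subst hS
      simp only [Finset.image_empty, Finset.sum_empty]
      exact e2_log_nat_nonneg _
    have hSr : (0 : ℝ) < S.card := by exact_mod_cast Finset.card_pos.2 hS
    have h1 : ∀ c ∈ S.image g, ((fib S g c).card : ℝ) / (S.card : ℝ) * ent (fib S g c) f ≤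
        ((fib S g c).card : ℝ) / (S.card : ℝ) * Real.log K := by
      intro c _
      obtain ⟨F, hFK, hF⟩ := hK c
      have h2 : ent (fib S g c) f ≤ Real.log F.card :=
        e2_ent_le _ _ _ fun x hx => hF x ((e3_mem_fib S g c x).1 hx).1 ((e3_mem_fib S g c x).1 hx).2
      have h3 : Real.log (F.card : ℝ) ≤ Real.log K := by
        rcases Nat.eq_zero_or_pos F.card with h0 | h0
        · rw [h0]
          simp only [Nat.cast_zero, Real.log_zero]
          exact e2_log_nat_nonneg _
        · exact Real.log_le_log (by exact_mod_cast h0) (by exact_mod_cast hFK)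
      gcongr
      exact h2.trans h3
    refine (Finset.sum_le_sum h1).trans ?_
    rw [← Finset.sum_mul, ← Finset.sum_div]
    have h4 : ∑ c ∈ S.image g, ((fib S g c).card : ℝ) = S.card := by
      have h5 := Finset.card_eq_sum_card_image g S
      rw [h5]
      push_cast
      refine Finset.sum_congr rfl fun c _ => ?_
      congr 1
    rw [h4, div_self hSr.ne', one_mul]
  · intro Ω α S f K hS hK
    have hSr : (0 : ℝ) < S.card := by exact_mod_cast Finset.card_pos.2 hS
    rw [e3_ent_eq, le_div_iff₀ hSr]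
    calc (Real.log S.card - Real.log K) * S.card = ∑ _x ∈ S, (Real.log S.card - Real.log K) := by
          rw [Finset.sum_const, nsmul_eq_mul, mul_comm]
      _ ≤ _ := by
          refine Finset.sum_le_sum fun x hx => ?_
          have hp : (0 : ℝ) < ((fib S f (f x)).card : ℝ) := by
            exact_mod_cast Finset.card_pos.2 ⟨x, (e3_mem_fib S f (f x) x).2 ⟨hx, rfl⟩⟩
          have : Real.log ((fib S f (f x)).card : ℝ) ≤ Real.log K :=
            Real.log_le_log hp (by exact_mod_cast hK x hx)
          linarith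
  · intro Ω α S f F hF
    exact e2_ent_le S f F hF

end Pool.Agent.Helper70.DK
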