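import Pool.Agent.Helper70.DK.Defs

set_option autoImplicit false

/-! Module E3: fibre decomposition of the conditional entropy. -/

namespace Pool.Agent.Helper70.DK

open Finset

theorem e3_mem_fib {Ω β : Type} (S : Finset Ω) (g : Ω → β) (c : β) (x : Ω) :
    x ∈ fib S g c ↔ x ∈ S ∧ g x = c := by
  classical
  unfold fib
  rw [Finset.mem_filter]

theorem e3_ent_eq {Ω α : Type} (S : Finset Ω) (f : Ω → α) :
    ent S f = (∑ ω ∈ S, (Real.log (S.card : ℝ) - Real.log ((fib S f (f ω)).card : ℝ))) /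
      (S.card : ℝ) := rfl

theorem e3_fib_pair {Ω α β : Type} (S : Finset Ω) (f : Ω → α) (g : Ω → β) (ω : Ω) :
    fib S (fun ω => (f ω, g ω)) (f ω, g ω) = fib (fib S g (g ω)) f (f ω) := by
  ext x
  simp only [e3_mem_fib, Prod.mk.injEq]
  tauto

theorem e3_cent_eq {Ω α β : Type} (S : Finset Ω) (f : Ω → α) (g : Ω → β) :
    cent S f g = (∑ ω ∈ S, (Real.log ((fib S g (g ω)).card : ℝ) -
      Real.log ((fib (fib S g (g ω)) f (f ω)).card : ℝ))) / (S.card : ℝ) := by
  unfold cent
  rw [e3_ent_eq, e3_ent_eq, ← sub_div, ← Finset.sum_sub_distrib]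
  congr 1
  refine Finset.sum_congr rfl fun ω _ => ?_
  rw [e3_fib_pair]
  ring

theorem st_E3 : ST_E3 := by
  intro Ω α β S f g C hC
  classical
  rw [e3_cent_eq, ← Finset.sum_fiberwise_of_maps_to hC, Finset.sum_div]
  refine Finset.sum_congr rfl fun c _ => ?_
  rw [e3_ent_eq]
  have h1 : {ω ∈ S | g ω = c} = fib S g c := by
    ext x
    rw [e3_mem_fib, Finset.mem_filter]
  rw [h1]
  rcases Nat.eq_zero_or_pos (fib S g c).card with h0 | h0
  · rw [Finset.card_eq_zero] at h0
    rw [h0]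
    simp
  · have h2 : ((fib S g c).card : ℝ) ≠ 0 := by positivity
    rw [div_mul_div_comm, mul_comm ((fib S g c).card : ℝ) _, mul_div_mul_right _ _ h2]
    congr 1
    refine Finset.sum_congr rfl fun ω hω => ?_
    rw [e3_mem_fib] at hω
    rw [hω.2]

end Pool.Agent.Helper70.DK
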